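import Pool.Agent.H922R2.K15

/-!
# The tree of the group of automorphisms of the affine plane
-/

set_option autoImplicit false

open MvPolynomial

namespace Pool.Agent.N77.PA

open Pool.Agent.H922R2

/-- acyclicity from a height function -/
theorem acyclic_of_height {V : Type*} (T : SimpleGraph V) (f : V → ℕ)
    (h1 : ∀ u v, T.Adj u v → f u ≠ f v)
    (h2 : ∀ v u u', T.Adj v u → T.Adj v u' → f u < f v → f u' < f v → u = u') :
    T.IsAcyclic := by
  intro v c hc
  classical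
  obtain ⟨w, hw, hmax⟩ := Finset.exists_max_image c.support.toFinset f
    ⟨v, by simp⟩
  have hw' : w ∈ c.support := by simpa using hw
  have hc' := hc.rotate hw'
  have hn : ¬ (c.rotate w hw').Nil := hc'.not_nil
  have ha1 := (c.rotate w hw').adj_snd hn
  have ha2 := (c.rotate w hw').adj_penultimate hn
  have hs : ∀ x ∈ (c.rotate w hw').support, f x ≤ f w := by
    intro x hx
    apply hmax
    rw [List.mem_toFinset]
    rwa [SimpleGraph.Walk.mem_support_rotate_iff] at hx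
  refine hc'.snd_ne_penultimate (h2 w _ _ ha1 ha2.symm ?_ ?_)
  · exact lt_of_le_of_ne (hs _ (SimpleGraph.Walk.getVert_mem_support _ _)) (h1 _ _ ha1.symm)
  · exact lt_of_le_of_ne (hs _ (SimpleGraph.Walk.getVert_mem_support _ _)) (h1 _ _ ha2)

section tree

variable {k : Type*} [Field k]

/-- the degree of the plane -/
noncomputable def dA (g : GA k) : ℕ := max (g (X 0)).totalDegree (g (X 1)).totalDegree

/-- the degree of the line -/
noncomputable def dE (g : GA k) : ℕ := (g (X 1)).totalDegree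

theorem ga_C' (g : GA k) (c : k) : g (C c) = C c := g.commutes c

theorem td_pos (g : GA k) (i : Fin 2) : 0 < (g (X i)).totalDegree := by
  rw [Nat.pos_iff_ne_zero]
  intro h
  rw [totalDegree_eq_zero_iff_eq_C] at h
  have h3 := g.injective (a₁ := X i) (a₂ := C (coeff 0 (g (X i)))) (by rw [ga_C']; exact h)
  have h4 := congrArg totalDegree h3
  rw [totalDegree_X, totalDegree_C] at h4
  omega

theorem td_lin_le (u v : MvPolynomial (Fin 2) k) (p q r : k) :
    (C p * u + C q * v + C r).totalDegree ≤ max u.totalDegree v.totalDegree := by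
  refine (totalDegree_add _ _).trans (max_le ?_ (by rw [totalDegree_C]; omega))
  refine (totalDegree_add _ _).trans (max_le ?_ ?_)
  · refine (totalDegree_mul _ _).trans ?_
    rw [totalDegree_C, zero_add]
    exact le_max_left _ _
  · refine (totalDegree_mul _ _).trans ?_
    rw [totalDegree_C, zero_add]
    exact le_max_right _ _

theorem td_mul_AG_le (g : GA k) {a : GA k} (ha : a ∈ AG k) (i : Fin 2) :
    ((g * a) (X i)).totalDegree ≤ dA g := by
  obtain ⟨p, q, r, h⟩ : ∃ p q r : k, a (X i) = C p * X 0 + C q * X 1 + C r := by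
    apply mem_Wsub.1
    fin_cases i
    · exact (AG_forms ha).1
    · exact (AG_forms ha).2
  rw [AlgEquiv.mul_apply, h, map_add, map_add, map_mul, map_mul, ga_C', ga_C', ga_C']
  exact td_lin_le _ _ _ _ _

theorem dA_mul (g : GA k) {a : GA k} (ha : a ∈ AG k) : dA (g * a) = dA g := by
  apply le_antisymm
  · exact max_le (td_mul_AG_le g ha 0) (td_mul_AG_le g ha 1)
  · have h1 : g = (g * a) * a⁻¹ := by group
    have h2 := td_mul_AG_le (g * a) (inv_mem ha)
    rw [← h1] at h2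
    exact max_le (h2 0) (h2 1)

theorem dE_mul [CharZero k] (g : GA k) {e : GA k} (he : e ∈ EG k) : dE (g * e) = dE g := by
  obtain ⟨a, b, c, P, ha, hb, h0, h1⟩ := EG_forms he
  unfold dE
  rw [AlgEquiv.mul_apply, h1, map_add, map_mul, ga_C', ga_C',
    totalDegree_add_eq_left_of_totalDegree_lt, td_C_mul hb]
  rw [td_C_mul hb, totalDegree_C]
  exact td_pos g 1

/-- a plane has at most one line of smaller degree -/
theorem uniq_line {g a : GA k} (ha : a ∈ AG k) (h1 : dE g < dA g) (h2 : dE (g * a) < dA g) :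
    a ∈ EG k := by
  by_contra hae
  obtain ⟨p, q, r, hp, h⟩ := AG_not_EG ha hae
  have h3 : (g (X 0)).totalDegree = dA g := by
    unfold dA dE at *
    omega
  have h4 : ((g * a) (X 1)).totalDegree = dA g := by
    rw [AlgEquiv.mul_apply, h, map_add, map_add, map_mul, map_mul, ga_C', ga_C', ga_C', add_assoc,
      totalDegree_add_eq_left_of_totalDegree_lt, td_C_mul hp, h3]
    rw [td_C_mul hp, h3]
    refine lt_of_le_of_lt (totalDegree_add _ _) (max_lt ?_ ?_)
    · refine lt_of_le_of_lt (totalDegree_mul _ _) ?_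
      rw [totalDegree_C, zero_add]
      exact h1
    · rw [totalDegree_C]
      exact lt_of_le_of_lt (Nat.zero_le _) h1
  unfold dE at h2
  omega

theorem EG_not_AG [CharZero k] {e : GA k} (he : e ∈ EG k) (he' : e ∉ AG k) :
    ∃ (a b c : k) (P : Polynomial k), a ≠ 0 ∧ b ≠ 0 ∧ e (X 0) = C a * X 0 + uy P ∧
      e (X 1) = C b * X 1 + C c ∧ 2 ≤ P.natDegree := by
  obtain ⟨α, β, γ, P, hα, hβ, he0, he1⟩ := EG_forms he
  refine ⟨α, β, γ, P, hα, hβ, he0, he1, ?_⟩
  by_contra hcon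
  apply he'
  apply mem_AG_of
  · rw [he0]
    have h1 : P.natDegree ≤ 1 := by omega
    rw [mem_Wsub]
    refine ⟨α, P.coeff 1, P.coeff 0, ?_⟩
    conv_lhs => rw [Polynomial.eq_X_add_C_of_natDegree_le_one h1]
    simp [uy, algebraMap_eq, add_assoc]
  · rw [he1, mem_Wsub]
    exact ⟨0, β, γ, by simp⟩

/-- a line is contained in at most one plane of the same degree -/
theorem uniq_plane [CharZero k] {g e : GA k} (he : e ∈ EG k) (h1 : dA g ≤ dE g)
    (h2 : dA (g * e) ≤ dE g) : e ∈ AG k := by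
  by_contra hea
  obtain ⟨a, b, c, P, ha, hb, h0, h1', hP⟩ := EG_not_AG he hea
  have hpos : 0 < dE g := td_pos g 1
  have h3 : ((g * e) (X 0)).totalDegree = P.natDegree * dE g := by
    rw [AlgEquiv.mul_apply, h0, map_add, map_mul, ga_C']
    have h4 : g (uy P) = Polynomial.aeval (g (X 1)) P :=
      (Polynomial.aeval_algHom_apply g.toAlgHom (X 1) P).symm
    have h5 : (Polynomial.aeval (g (X 1)) P).totalDegree = P.natDegree * dE g :=
      td_aeval rfl hpos P
    rw [h4, totalDegree_add_eq_right_of_totalDegree_lt, h5]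
    rw [h5, td_C_mul ha]
    have h6 : (g (X 0)).totalDegree ≤ dE g := (le_max_left _ _).trans h1
    nlinarith
  have h7 : ((g * e) (X 0)).totalDegree ≤ dE g := (le_max_left _ _).trans h2
  rw [h3] at h7
  nlinarith

/-- the vertices of the tree -/
abbrev Vx (k : Type*) [Field k] := (GA k ⧸ AG k) ⊕ (GA k ⧸ EG k)

/-- the tree -/
def Tr (k : Type*) [Field k] : SimpleGraph (Vx k) where
  Adj x y := ∃ g : GA k, (x = Sum.inl (g : GA k ⧸ AG k) ∧ y = Sum.inr (g : GA k ⧸ EG k)) ∨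
    (x = Sum.inr (g : GA k ⧸ EG k) ∧ y = Sum.inl (g : GA k ⧸ AG k))
  symm := ⟨fun x y ⟨g, h⟩ => ⟨g, by
    rcases h with ⟨h1, h2⟩ | ⟨h1, h2⟩
    · exact Or.inr ⟨h2, h1⟩
    · exact Or.inl ⟨h2, h1⟩⟩⟩
  loopless := ⟨fun x ⟨g, h⟩ => by
    rcases h with ⟨h1, h2⟩ | ⟨h1, h2⟩
    · rw [h1] at h2; exact absurd h2 (by simp)
    · rw [h1] at h2; exact absurd h2 (by simp)⟩

theorem adj_lr (g h : GA k) : (Tr k).Adj (Sum.inl (g : GA k ⧸ AG k)) (Sum.inr (h : GA k ⧸ EG k)) ↔
    ∃ a ∈ AG k, ((g * a : GA k) : GA k ⧸ EG k) = (h : GA k ⧸ EG k) := by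
  constructor
  · rintro ⟨u, ⟨h1, h2⟩ | ⟨h1, h2⟩⟩
    · have h3 := QuotientGroup.eq.1 (Sum.inl_injective h1)
      refine ⟨g⁻¹ * u, h3, ?_⟩
      rw [mul_inv_cancel_left]
      exact (Sum.inr_injective h2).symm
    · exact absurd h1 (by simp)
  · rintro ⟨a, ha, h1⟩
    refine ⟨g * a, Or.inl ⟨?_, ?_⟩⟩
    · congr 1
      exact (QuotientGroup.mk_mul_of_mem g ha).symm
    · rw [h1]

theorem adj_rl (g h : GA k) : (Tr k).Adj (Sum.inr (g : GA k ⧸ EG k)) (Sum.inl (h : GA k ⧸ AG k)) ↔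
    ∃ e ∈ EG k, ((g * e : GA k) : GA k ⧸ AG k) = (h : GA k ⧸ AG k) := by
  constructor
  · rintro ⟨u, ⟨h1, h2⟩ | ⟨h1, h2⟩⟩
    · exact absurd h1 (by simp)
    · have h3 := QuotientGroup.eq.1 (Sum.inr_injective h1)
      refine ⟨g⁻¹ * u, h3, ?_⟩
      rw [mul_inv_cancel_left]
      exact (Sum.inl_injective h2).symm
  · rintro ⟨a, ha, h1⟩
    refine ⟨g * a, Or.inr ⟨?_, ?_⟩⟩
    · congr 1
      exact (QuotientGroup.mk_mul_of_mem g ha).symm
    · rw [h1]

/-- the height -/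
noncomputable def ht : Vx k → ℕ
  | Sum.inl q => 2 * dA q.out
  | Sum.inr q => 2 * dE q.out + 1

theorem ht_inl (g : GA k) : ht (Sum.inl (g : GA k ⧸ AG k)) = 2 * dA g := by
  show 2 * dA (g : GA k ⧸ AG k).out = _
  obtain ⟨a, ha⟩ := QuotientGroup.mk_out_eq_mul (AG k) g
  rw [ha, dA_mul g a.2]

theorem ht_inr [CharZero k] (g : GA k) : ht (Sum.inr (g : GA k ⧸ EG k)) = 2 * dE g + 1 := by
  show 2 * dE (g : GA k ⧸ EG k).out + 1 = _
  obtain ⟨a, ha⟩ := QuotientGroup.mk_out_eq_mul (EG k) g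
  rw [ha, dE_mul g a.2]

theorem Tr_acyclic [CharZero k] : (Tr k).IsAcyclic := by
  refine acyclic_of_height (Tr k) ht ?_ ?_
  · rintro u v ⟨g, ⟨rfl, rfl⟩ | ⟨rfl, rfl⟩⟩
    · rw [ht_inl, ht_inr]; omega
    · rw [ht_inl, ht_inr]; omega
  · rintro (v | v) (u | u) (u' | u') h1 h2 h3 h4
    · exact absurd h1 (by rintro ⟨g, ⟨h5, h6⟩ | ⟨h5, h6⟩⟩ <;> simp at h5 h6)
    · exact absurd h1 (by rintro ⟨g, ⟨h5, h6⟩ | ⟨h5, h6⟩⟩ <;> simp at h5 h6)
    · exact absurd h2 (by rintro ⟨g, ⟨h5, h6⟩ | ⟨h5, h6⟩⟩ <;> simp at h5 h6)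
    · obtain ⟨g, rfl⟩ := QuotientGroup.mk_surjective v
      obtain ⟨u, rfl⟩ := QuotientGroup.mk_surjective u
      obtain ⟨u', rfl⟩ := QuotientGroup.mk_surjective u'
      obtain ⟨a, ha, h5⟩ := (adj_lr _ _).1 h1
      obtain ⟨a', ha', h6⟩ := (adj_lr _ _).1 h2
      rw [← h5, ht_inl, ht_inr] at h3
      rw [← h6, ht_inl, ht_inr] at h4
      rw [← h5, ← h6]
      have h7 : g * a' = (g * a) * (a⁻¹ * a') := by group
      have h8 : a⁻¹ * a' ∈ EG k := by
        refine uniq_line (g := g * a) (mul_mem (inv_mem ha) ha') ?_ ?_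
        · rw [dA_mul g ha]; omega
        · rw [← h7, dA_mul g ha]; omega
      rw [h7]
      congr 1
      exact (QuotientGroup.mk_mul_of_mem _ h8).symm
    · obtain ⟨g, rfl⟩ := QuotientGroup.mk_surjective v
      obtain ⟨u, rfl⟩ := QuotientGroup.mk_surjective u
      obtain ⟨u', rfl⟩ := QuotientGroup.mk_surjective u'
      obtain ⟨a, ha, h5⟩ := (adj_rl _ _).1 h1
      obtain ⟨a', ha', h6⟩ := (adj_rl _ _).1 h2
      rw [← h5, ht_inl, ht_inr] at h3
      rw [← h6, ht_inl, ht_inr] at h4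
      rw [← h5, ← h6]
      have h7 : g * a' = (g * a) * (a⁻¹ * a') := by group
      have h8 : a⁻¹ * a' ∈ AG k := by
        refine uniq_plane (g := g * a) (mul_mem (inv_mem ha) ha') ?_ ?_
        · rw [dE_mul g ha]; omega
        · rw [← h7, dE_mul g ha]; omega
      rw [h7]
      congr 1
      exact (QuotientGroup.mk_mul_of_mem _ h8).symm
    · exact absurd h2 (by rintro ⟨g, ⟨h5, h6⟩ | ⟨h5, h6⟩⟩ <;> simp at h5 h6)
    · exact absurd h1 (by rintro ⟨g, ⟨h5, h6⟩ | ⟨h5, h6⟩⟩ <;> simp at h5 h6)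
    · exact absurd h1 (by rintro ⟨g, ⟨h5, h6⟩ | ⟨h5, h6⟩⟩ <;> simp at h5 h6)

theorem reach_mul_A (g : GA k) {a : GA k} (ha : a ∈ AG k) :
    (Sum.inl ((g * a : GA k) : GA k ⧸ AG k) : Vx k) = Sum.inl (g : GA k ⧸ AG k) := by
  congr 1
  exact QuotientGroup.mk_mul_of_mem g ha

theorem reach_mul_E (g : GA k) {e : GA k} (he : e ∈ EG k) :
    (Tr k).Reachable (Sum.inl (g : GA k ⧸ AG k)) (Sum.inl ((g * e : GA k) : GA k ⧸ AG k)) := by
  have h1 : (Tr k).Adj (Sum.inl (g : GA k ⧸ AG k)) (Sum.inr (g : GA k ⧸ EG k)) :=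
    ⟨g, Or.inl ⟨rfl, rfl⟩⟩
  have h2 : (Tr k).Adj (Sum.inr (g : GA k ⧸ EG k)) (Sum.inl ((g * e : GA k) : GA k ⧸ AG k)) :=
    (adj_rl _ _).2 ⟨e, he, rfl⟩
  exact h1.reachable.trans h2.reachable

theorem Tr_connected [CharZero k] [IsAlgClosed k] : (Tr k).Connected := by
  have key : ∀ g : GA k, (Tr k).Reachable (Sum.inl ((1 : GA k) : GA k ⧸ AG k))
      (Sum.inl (g : GA k ⧸ AG k)) := by
    intro g
    have hg : g ∈ Subgroup.closure ((AG k : Set (GA k)) ∪ (EG k : Set (GA k))) := by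
      rw [Subgroup.closure_union, Subgroup.closure_eq, Subgroup.closure_eq]
      have := jvdk (k := k)
      unfold TG at this
      rw [this]
      exact Subgroup.mem_top g
    induction hg using Subgroup.closure_induction_right with
    | one => exact SimpleGraph.Reachable.refl _
    | mul_right x hx y hy ih =>
      rcases hy with hy | hy
      · rw [reach_mul_A x hy]
        exact ih
      · exact ih.trans (reach_mul_E x hy)
    | mul_inv_cancel x hx y hy ih =>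
      rcases hy with hy | hy
      · rw [reach_mul_A x (inv_mem hy)]
        exact ih
      · exact ih.trans (reach_mul_E x (inv_mem hy))
  have key' : ∀ v : Vx k, (Tr k).Reachable (Sum.inl ((1 : GA k) : GA k ⧸ AG k)) v := by
    rintro (v | v)
    · obtain ⟨g, rfl⟩ := QuotientGroup.mk_surjective v
      exact key g
    · obtain ⟨g, rfl⟩ := QuotientGroup.mk_surjective v
      have h1 : (Tr k).Adj (Sum.inl (g : GA k ⧸ AG k)) (Sum.inr (g : GA k ⧸ EG k)) :=
        ⟨g, Or.inl ⟨rfl, rfl⟩⟩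
      exact (key g).trans h1.reachable
  have : Nonempty (Vx k) := ⟨Sum.inl ((1 : GA k) : GA k ⧸ AG k)⟩
  exact { preconnected := fun u v => (key' u).symm.trans (key' v) }

theorem Tr_isTree [CharZero k] [IsAlgClosed k] : (Tr k).IsTree := ⟨Tr_connected, Tr_acyclic⟩

theorem Tr_smul (g : GA k) (u v : Vx k) (h : (Tr k).Adj u v) : (Tr k).Adj (g • u) (g • v) := by
  obtain ⟨x, ⟨rfl, rfl⟩ | ⟨rfl, rfl⟩⟩ := h
  · exact ⟨g * x, Or.inl ⟨rfl, rfl⟩⟩
  · exact ⟨g * x, Or.inr ⟨rfl, rfl⟩⟩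

end tree

end Pool.Agent.N77.PA
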