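import Mathlib

/-!
# Base change of automorphisms of polynomial rings, and their congruence subgroups
-/

set_option autoImplicit false

open MvPolynomial

namespace Pool.Agent.N77.PA

/-- automorphisms of a polynomial ring -/
abbrev Au (σ R : Type*) [CommRing R] := MvPolynomial σ R ≃ₐ[R] MvPolynomial σ R

section bc

variable {σ R S : Type*} [CommRing R] [CommRing S] (φ : R →+* S)

theorem au_ext {g h : Au σ R} (H : ∀ i, g (X i) = h (X i)) : g = h := by
  apply AlgEquiv.coe_toAlgHom_injective
  exact MvPolynomial.algHom_ext H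

/-- base change of an automorphism, as a homomorphism -/
noncomputable def bcH (g : Au σ R) : MvPolynomial σ S →ₐ[S] MvPolynomial σ S :=
  aeval (fun i => map φ (g (X i)))

theorem bcH_map (g : Au σ R) (f : MvPolynomial σ R) : bcH φ g (map φ f) = map φ (g f) := by
  have h : ((bcH φ g : MvPolynomial σ S →+* MvPolynomial σ S)).comp (map φ) =
      (map φ).comp (g : MvPolynomial σ R →+* MvPolynomial σ R) := by
    apply MvPolynomial.ringHom_ext
    · intro r
      have h1 : g (C r) = C r := g.commutes r
      simp only [RingHom.comp_apply, map_C, RingHom.coe_coe, h1]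
      exact (bcH φ g).commutes (φ r)
    · intro i
      simp [bcH]
  exact DFunLike.congr_fun h f

theorem bcH_X (g : Au σ R) (i : σ) : bcH φ g (X i) = map φ (g (X i)) := by
  simp [bcH]

/-- base change -/
noncomputable def bc : Au σ R →* Au σ S where
  toFun g := AlgEquiv.ofAlgHom (bcH φ g) (bcH φ g⁻¹)
    (by
      apply MvPolynomial.algHom_ext
      intro i
      have h : g (g⁻¹ (X i)) = X i := g.apply_symm_apply _
      rw [AlgHom.comp_apply, bcH_X, bcH_map, h, map_X]
      rfl)
    (by
      apply MvPolynomial.algHom_ext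
      intro i
      have h : g⁻¹ (g (X i)) = X i := g.symm_apply_apply _
      rw [AlgHom.comp_apply, bcH_X, bcH_map, h, map_X]
      rfl)
  map_one' := by
    apply au_ext
    intro i
    show bcH φ 1 (X i) = _
    rw [bcH_X]
    simp
  map_mul' g h := by
    apply au_ext
    intro i
    show bcH φ (g * h) (X i) = bcH φ g (bcH φ h (X i))
    rw [bcH_X, bcH_X, bcH_map]
    rfl

theorem bc_X (g : Au σ R) (i : σ) : bc φ g (X i) = map φ (g (X i)) := bcH_X φ g i

theorem bc_map (g : Au σ R) (f : MvPolynomial σ R) : bc φ g (map φ f) = map φ (g f) :=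
  bcH_map φ g f

theorem bc_injective (hφ : Function.Injective φ) :
    Function.Injective (bc φ : Au σ R →* Au σ S) := by
  intro g h H
  apply au_ext
  intro i
  apply MvPolynomial.map_injective φ hφ
  rw [← bc_X, ← bc_X, H]

/-- descent of automorphisms -/
theorem mem_range_bc (hφ : Function.Injective φ) (g : Au σ S)
    (h1 : ∀ i, g (X i) ∈ (map φ : MvPolynomial σ R →+* MvPolynomial σ S).range)
    (h2 : ∀ i, g⁻¹ (X i) ∈ (map φ : MvPolynomial σ R →+* MvPolynomial σ S).range) :
    g ∈ (bc φ : Au σ R →* Au σ S).range := by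
  choose a ha using h1
  choose b hb using h2
  have hga : ∀ f : MvPolynomial σ R, g (map φ f) = map φ (aeval a f) := by
    intro f
    have h : (g : MvPolynomial σ S →+* MvPolynomial σ S).comp (map φ) =
        (map φ).comp ((aeval a : MvPolynomial σ R →ₐ[R] MvPolynomial σ R) :
          MvPolynomial σ R →+* MvPolynomial σ R) := by
      apply MvPolynomial.ringHom_ext
      · intro r
        have h1 : g (C (φ r)) = C (φ r) := g.commutes (φ r)
        show g (map φ (C r)) = map φ (aeval a (C r))
        rw [map_C, h1, algHom_C, algebraMap_eq, map_C]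
      · intro i
        simp [ha]
    exact DFunLike.congr_fun h f
  have hgb : ∀ f : MvPolynomial σ R, g⁻¹ (map φ f) = map φ (aeval b f) := by
    intro f
    have h : ((g⁻¹ : Au σ S) : MvPolynomial σ S →+* MvPolynomial σ S).comp (map φ) =
        (map φ).comp ((aeval b : MvPolynomial σ R →ₐ[R] MvPolynomial σ R) :
          MvPolynomial σ R →+* MvPolynomial σ R) := by
      apply MvPolynomial.ringHom_ext
      · intro r
        have h1 : g⁻¹ (C (φ r)) = C (φ r) := (g⁻¹ : Au σ S).commutes (φ r)
        show g⁻¹ (map φ (C r)) = map φ (aeval b (C r))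
        rw [map_C, h1, algHom_C, algebraMap_eq, map_C]
      · intro i
        simp [hb]
    exact DFunLike.congr_fun h f
  have hinj := MvPolynomial.map_injective (σ := σ) φ hφ
  refine ⟨AlgEquiv.ofAlgHom (aeval a) (aeval b) ?_ ?_, ?_⟩
  · apply MvPolynomial.algHom_ext
    intro i
    apply hinj
    rw [AlgHom.comp_apply, aeval_X, ← hga, hb]
    have h : g (g⁻¹ (X i)) = X i := g.apply_symm_apply _
    rw [h]
    simp
  · apply MvPolynomial.algHom_ext
    intro i
    apply hinj
    rw [AlgHom.comp_apply, aeval_X, ← hgb, ha]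
    have h : g⁻¹ (g (X i)) = X i := g.symm_apply_apply _
    rw [h]
    simp
  · apply au_ext
    intro i
    rw [bc_X, ← ha]
    congr 1
    exact aeval_X a i

end bc

section filt

variable {σ R : Type*} [CommRing R]

/-- the maximal ideal of the origin over `m` -/
noncomputable def MM (σ : Type*) {R : Type*} [CommRing R] (m : Ideal R) :
    Ideal (MvPolynomial σ R) :=
  m.map (C : R →+* MvPolynomial σ R) ⊔ Ideal.span (Set.range X)

/-- congruence condition -/
def Cong (m : Ideal R) (g : Au σ R) : Prop := ∀ f, g f - f ∈ MM σ m ^ 2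

theorem cong_of_X {m : Ideal R} {g : Au σ R} (h : ∀ i, g (X i) - X i ∈ MM σ m ^ 2) : Cong m g := by
  intro f
  induction f using MvPolynomial.induction_on with
  | C r =>
    have h1 : g (C r) = C r := g.commutes r
    rw [h1, sub_self]
    exact zero_mem _
  | add p q hp hq =>
    have : g (p + q) - (p + q) = (g p - p) + (g q - q) := by rw [map_add]; ring
    rw [this]
    exact add_mem hp hq
  | mul_X p i hp =>
    have : g (p * X i) - p * X i = g (X i) * (g p - p) + p * (g (X i) - X i) := by
      rw [map_mul]; ring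
    rw [this]
    exact add_mem (Ideal.mul_mem_left _ _ hp) (Ideal.mul_mem_left _ _ (h i))

theorem cong_pow {m : Ideal R} {g : Au σ R} (h : Cong m g) (k : ℕ) :
    ∀ f ∈ MM σ m ^ k, g f - f ∈ MM σ m ^ (k + 1) := by
  induction k with
  | zero =>
    intro f _
    rw [zero_add, pow_one]
    exact Ideal.pow_le_self two_ne_zero (h f)
  | succ k ih =>
    intro f hf
    rw [pow_succ', ← smul_eq_mul] at hf
    induction hf using Submodule.smul_induction_on' with
    | smul u hu v hv =>
      rw [smul_eq_mul]
      have : g (u * v) - u * v = (g u - u) * g v + u * (g v - v) := by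
        rw [map_mul]; ring
      rw [this]
      have hgv : g v ∈ MM σ m ^ k := by
        have h1 : g v = (g v - v) + v := by ring
        rw [h1]
        exact add_mem (Ideal.pow_le_pow_right (Nat.le_succ k) (ih v hv)) hv
      refine add_mem ?_ ?_
      · have h1 := Ideal.mul_mem_mul (h u) hgv
        rw [← pow_add] at h1
        have h2 : 2 + k = k + 1 + 1 := by ring
        rwa [h2] at h1
      · have h1 := Ideal.mul_mem_mul hu (ih v hv)
        rwa [← pow_succ'] at h1
    | add x _ y _ hx hy =>
      have : g (x + y) - (x + y) = (g x - x) + (g y - y) := by rw [map_add]; ring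
      rw [this]
      exact add_mem hx hy

theorem C_mem_MM {m : Ideal R} {a : R} (ha : a ∈ m) : (C a : MvPolynomial σ R) ∈ MM σ m :=
  Ideal.mem_sup_left (Ideal.mem_map_of_mem _ ha)

/-- congruence automorphisms of finite order prime to the residue characteristic are trivial -/
theorem cong_tors {m : Ideal R} {g : Au σ R} (h : Cong m g) {l : ℕ} (hl : ∃ u : R, u * l - 1 ∈ m)
    (hg : g ^ l = 1) (k : ℕ) : ∀ f, g f - f ∈ MM σ m ^ k := by
  obtain ⟨u, hu⟩ := hl
  induction k with
  | zero =>
    intro f
    rw [pow_zero, Ideal.one_eq_top]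
    exact Submodule.mem_top
  | succ k ih =>
    intro f
    have key : ∀ j : ℕ, (g ^ j) f - f - (j : MvPolynomial σ R) * (g f - f) ∈ MM σ m ^ (k + 1) := by
      intro j
      induction j with
      | zero => simp
      | succ j ihj =>
        have h1 : (g ^ j) f - f ∈ MM σ m ^ k := by
          have h2 : (g ^ j) f - f = ((g ^ j) f - f - (j : MvPolynomial σ R) * (g f - f)) +
            (j : MvPolynomial σ R) * (g f - f) := by ring
          rw [h2]
          exact add_mem (Ideal.pow_le_pow_right (Nat.le_succ k) ihj)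
            (Ideal.mul_mem_left _ _ (ih f))
        have h3 := cong_pow h k _ h1
        have h4 : (g ^ (j + 1)) f = g ((g ^ j) f) := by
          rw [pow_succ', AlgEquiv.mul_apply]
        have h5 : (g ^ (j + 1)) f - f - ((j + 1 : ℕ) : MvPolynomial σ R) * (g f - f) =
            (g ((g ^ j) f - f) - ((g ^ j) f - f)) +
              ((g ^ j) f - f - (j : MvPolynomial σ R) * (g f - f)) := by
          rw [h4, map_sub]
          push_cast
          ring
        rw [h5]
        exact add_mem h3 ihj
    have h1 := key l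
    rw [hg] at h1
    have h2 : (l : MvPolynomial σ R) * (g f - f) ∈ MM σ m ^ (k + 1) := by
      have h3 : (l : MvPolynomial σ R) * (g f - f) =
          -((1 : Au σ R) f - f - (l : MvPolynomial σ R) * (g f - f)) := by
        rw [AlgEquiv.one_apply]
        ring
      rw [h3]
      exact neg_mem h1
    have h3 : (C (u * l - 1) : MvPolynomial σ R) * (g f - f) ∈ MM σ m ^ (k + 1) := by
      have := Ideal.mul_mem_mul (C_mem_MM (σ := σ) hu) (ih f)
      rwa [← pow_succ'] at this
    have h4 : g f - f = C u * ((l : MvPolynomial σ R) * (g f - f)) -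
        C (u * l - 1) * (g f - f) := by
      rw [C_sub, C_mul, C_1, map_natCast]
      ring
    rw [h4]
    exact sub_mem (Ideal.mul_mem_left _ _ h2) h3

theorem MM_ne_top {m : Ideal R} (hm : m ≠ ⊤) : MM σ m ≠ ⊤ := by
  intro h
  apply hm
  rw [Ideal.eq_top_iff_one]
  have h1 : MM σ m ≤ m.comap (constantCoeff : MvPolynomial σ R →+* R) := by
    refine sup_le ?_ ?_
    · rw [Ideal.map_le_iff_le_comap]
      intro a ha
      show constantCoeff (C a) ∈ m
      rwa [constantCoeff_C]
    · rw [Ideal.span_le]
      rintro _ ⟨i, rfl⟩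
      show constantCoeff (X i) ∈ m
      rw [constantCoeff_X]
      exact zero_mem _
  have h2 : (1 : MvPolynomial σ R) ∈ m.comap (constantCoeff : MvPolynomial σ R →+* R) := by
    apply h1
    rw [h]
    exact Submodule.mem_top
  have h3 : constantCoeff (1 : MvPolynomial σ R) ∈ m := h2
  rwa [map_one] at h3

theorem cong_tors_one [IsDomain R] [IsNoetherianRing R] [Finite σ] {m : Ideal R} (hm : m ≠ ⊤)
    {g : Au σ R} (h : Cong m g) {l : ℕ} (hl : ∃ u : R, u * l - 1 ∈ m) (hg : g ^ l = 1) :
    g = 1 := by
  apply au_ext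
  intro i
  have h1 : g (X i) - X i ∈ ⨅ k : ℕ, MM σ m ^ k := by
    rw [Ideal.mem_iInf]
    exact fun k => cong_tors h hl hg k _
  have h2 : ⨅ k : ℕ, MM σ m ^ k = ⊥ := Ideal.iInf_pow_eq_bot_of_isDomain _ (MM_ne_top hm)
  rw [h2, Ideal.mem_bot, sub_eq_zero] at h1
  exact h1

theorem cong_npow {m : Ideal R} {g : Au σ R} (h : Cong m g) (n : ℕ) : Cong m (g ^ n) := by
  induction n with
  | zero =>
    intro f
    rw [pow_zero, AlgEquiv.one_apply, sub_self]
    exact zero_mem _
  | succ n ih =>
    intro f
    have h1 : (g ^ (n + 1)) f - f = (g ((g ^ n) f) - (g ^ n) f) + ((g ^ n) f - f) := by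
      rw [pow_succ', AlgEquiv.mul_apply]
      ring
    rw [h1]
    exact add_mem (h _) (ih f)

/-- automorphisms which are trivial modulo two places of different residue characteristics have
infinite order -/
theorem cong_two [IsDomain R] [IsNoetherianRing R] [Finite σ] {m m' : Ideal R} (hm : m ≠ ⊤)
    (hm' : m' ≠ ⊤) {p : ℕ} (hp : p.Prime) (hpm : (p : R) ∈ m) (hpm' : ∃ u : R, u * p - 1 ∈ m')
    {g : Au σ R} (h : Cong m g) (h' : Cong m' g) {n : ℕ} (hn : 0 < n) (hg : g ^ n = 1) :
    g = 1 := by
  obtain ⟨a, b, hb, hab⟩ := Nat.exists_eq_pow_mul_and_not_dvd hn.ne' p hp.ne_one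
  have hcop : Nat.Coprime b p := (Nat.Prime.coprime_iff_not_dvd hp).2 hb |>.symm
  -- `b` is invertible modulo `m`
  have hbu : ∃ u : R, u * b - 1 ∈ m := by
    have h1 := (Nat.isCoprime_iff_coprime.2 hcop)
    obtain ⟨x, y, hxy⟩ := h1
    refine ⟨(x : R), ?_⟩
    have h2 : ((x * b + y * p : ℤ) : R) = 1 := by rw [hxy]; simp
    push_cast at h2
    have h3 : (x : R) * (b : R) - 1 = -((y : R) * (p : R)) := by linear_combination h2
    rw [h3]
    exact neg_mem (Ideal.mul_mem_left _ _ hpm)
  have h1 : g ^ (p ^ a) = 1 :=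
    cong_tors_one hm (cong_npow h _) hbu (by rw [← pow_mul, ← hab, hg])
  -- `p ^ a` is invertible modulo `m'`
  have hpu : ∃ u : R, u * ((p ^ a : ℕ) : R) - 1 ∈ m' := by
    obtain ⟨u, hu⟩ := hpm'
    refine ⟨u ^ a, ?_⟩
    push_cast
    rw [← mul_pow]
    have h2 := sub_dvd_pow_sub_pow (u * (p : R)) 1 a
    rw [one_pow] at h2
    exact Ideal.mem_of_dvd _ h2 hu
  exact cong_tors_one hm' h' hpu h1

end filt

/-! ### the congruence subgroups have finite index -/

section idx

variable {σ R : Type*} [CommRing R] [Finite σ]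

omit [Finite σ] in
theorem finite_MM {m : Ideal R} [Finite (R ⧸ m)] : Finite (MvPolynomial σ R ⧸ MM σ m) := by
  have hm : m ≤ (MM σ m).comap (C : R →+* MvPolynomial σ R) := fun a ha => C_mem_MM ha
  have hsurj : Function.Surjective (Ideal.quotientMap (MM σ m) (C : R →+* MvPolynomial σ R) hm) := by
    intro x
    obtain ⟨f, rfl⟩ := Ideal.Quotient.mk_surjective x
    refine ⟨Ideal.Quotient.mk m (constantCoeff f), ?_⟩
    rw [Ideal.quotientMap_mk, Ideal.Quotient.eq]
    induction f using MvPolynomial.induction_on with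
    | C r => simp
    | add p q hp hq =>
      have : C (constantCoeff (p + q)) - (p + q) = (C (constantCoeff p) - p) +
        (C (constantCoeff q) - q) := by rw [map_add, map_add]; ring
      rw [this]
      exact add_mem hp hq
    | mul_X p i hp =>
      rw [map_mul, constantCoeff_X, mul_zero, C_0, zero_sub]
      apply neg_mem
      apply Ideal.mul_mem_left
      exact Ideal.mem_sup_right (Ideal.subset_span ⟨i, rfl⟩)
  exact Finite.of_surjective _ hsurj

theorem finite_MM2 [IsNoetherianRing R] {m : Ideal R} [Finite (R ⧸ m)] :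
    Finite (MvPolynomial σ R ⧸ MM σ m ^ 2) := by
  have := finite_MM (σ := σ) (m := m)
  exact Ideal.finite_quotient_pow (IsNoetherian.noetherian _) 2

/-- the action on the points -/
noncomputable def ptAct (B : Type*) [CommRing B] [Algebra R B] : Au σ R →* Equiv.Perm (MvPolynomial σ R →ₐ[R] B) where
  toFun g :=
    { toFun := fun φ => φ.comp (g⁻¹ : Au σ R).toAlgHom
      invFun := fun φ => φ.comp g.toAlgHom
      left_inv := fun φ => by
        apply AlgHom.ext
        intro f
        show φ (g⁻¹ (g f)) = φ f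
        congr 1
        exact g.symm_apply_apply f
      right_inv := fun φ => by
        apply AlgHom.ext
        intro f
        show φ (g (g⁻¹ f)) = φ f
        congr 1
        exact g.apply_symm_apply f }
  map_one' := by
    ext φ f
    rfl
  map_mul' g h := by
    apply Equiv.ext
    intro φ
    apply AlgHom.ext
    intro f
    show φ ((g * h)⁻¹ f) = φ (h⁻¹ (g⁻¹ f))
    rw [mul_inv_rev]
    rfl

/-- a subgroup of finite index of congruence automorphisms -/
theorem ex_cong [IsNoetherianRing R] (m : Ideal R) [Finite (R ⧸ m)] :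
    ∃ H : Subgroup (Au σ R), H.FiniteIndex ∧ ∀ g ∈ H, Cong m g := by
  have h1 := finite_MM2 (σ := σ) (m := m)
  have h2 : Finite (MvPolynomial σ R →ₐ[R] (MvPolynomial σ R ⧸ MM σ m ^ 2)) := by
    have hinj : Function.Injective (fun (φ : MvPolynomial σ R →ₐ[R]
        (MvPolynomial σ R ⧸ MM σ m ^ 2)) (i : σ) => φ (X i)) := by
      intro φ ψ h
      apply MvPolynomial.algHom_ext
      intro i
      exact congrFun h i
    exact Finite.of_injective _ hinj
  refine ⟨(ptAct (σ := σ) (R := R) (MvPolynomial σ R ⧸ MM σ m ^ 2)).ker,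
    Subgroup.finiteIndex_ker _, fun g hg f => ?_⟩
  have h3 : g⁻¹ ∈ (ptAct (σ := σ) (R := R) (MvPolynomial σ R ⧸ MM σ m ^ 2)).ker := inv_mem hg
  rw [MonoidHom.mem_ker] at h3
  have h4 := DFunLike.congr_fun h3 (Ideal.Quotient.mkₐ R (MM σ m ^ 2))
  have h5 := DFunLike.congr_fun h4 f
  have h6 : Ideal.Quotient.mk (MM σ m ^ 2) ((g⁻¹)⁻¹ f) = Ideal.Quotient.mk (MM σ m ^ 2) f := h5
  rw [inv_inv] at h6
  exact Ideal.Quotient.eq.1 h6

end idx

end Pool.Agent.N77.PA
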