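import Mathlib

/-!
# Two places of different residue characteristics
-/

set_option autoImplicit false

namespace Pool.Agent.N77.PA

theorem jac_int : IsJacobsonRing ℤ := by
  rw [isJacobsonRing_iff_prime_eq]
  intro P hP
  by_cases h : P = ⊥
  · subst h
    rw [eq_bot_iff]
    intro x hx
    rw [Ideal.mem_jacobson_bot] at hx
    have h1 := hx x
    rw [Int.isUnit_iff] at h1
    rw [Ideal.mem_bot]
    rcases h1 with h1 | h1
    · have : x * x = 0 := by linarith
      exact mul_self_eq_zero.1 this
    · exfalso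
      nlinarith [mul_self_nonneg x]
  · have : P.IsMaximal := IsPrime.to_maximal_ideal h
    exact Ideal.jacobson_eq_self_of_isMaximal

/-- a field that is finitely generated as a ring is finite -/
theorem finite_of_finiteType (κ : Type*) [Field κ] [i : Algebra ℤ κ] [Algebra.FiniteType ℤ κ] :
    Finite κ ∧ (ringChar κ).Prime := by
  obtain rfl : i = Ring.toIntAlgebra κ := Subsingleton.elim _ _
  have := jac_int
  have hfin : Module.Finite ℤ κ := finite_of_finite_type_of_isJacobsonRing ℤ κ
  have hp0 : ringChar κ ≠ 0 := by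
    intro h0
    have hc : CharZero κ := (CharP.charP_zero_iff_charZero κ).1 (ringChar.of_eq h0)
    have hinj : Function.Injective (algebraMap ℤ κ) := by
      have : (algebraMap ℤ κ) = Int.castRingHom κ := RingHom.ext_int _ _
      rw [this]
      exact RingHom.injective_int _
    have hint : Algebra.IsIntegral ℤ κ := Algebra.IsIntegral.of_finite ℤ κ
    exact Int.not_isField (isField_of_isIntegral_of_isField hinj (Field.toIsField κ))
  have hprime : Fact (ringChar κ).Prime := by
    rcases CharP.char_is_prime_or_zero κ (ringChar κ) with h | h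
    · exact ⟨h⟩
    · exact absurd h hp0
  let _ := ZMod.algebra κ (ringChar κ)
  have : IsScalarTower ℤ (ZMod (ringChar κ)) κ := by
    refine IsScalarTower.of_algebraMap_eq' (RingHom.ext_int _ _)
  have : Module.Finite (ZMod (ringChar κ)) κ := Module.Finite.of_restrictScalars_finite ℤ _ κ
  exact ⟨Module.finite_of_finite (ZMod (ringChar κ)), hprime.out⟩

/-- two maximal ideals of different residue characteristics -/
theorem ex_places (O : Type*) [CommRing O] [IsDomain O] [CharZero O] [Algebra.FiniteType ℤ O] :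
    ∃ m m' : Ideal O, m ≠ ⊤ ∧ m' ≠ ⊤ ∧ Finite (O ⧸ m) ∧ Finite (O ⧸ m') ∧
      ∃ p : ℕ, p.Prime ∧ (p : O) ∈ m ∧ ∃ u : O, u * p - 1 ∈ m' := by
  have := jac_int
  have hJ : IsJacobsonRing O := isJacobsonRing_of_finiteType (A := ℤ)
  have hres : ∀ m : Ideal O, m.IsMaximal → Finite (O ⧸ m) ∧ ∃ p : ℕ, p.Prime ∧ (p : O) ∈ m := by
    intro m hm
    let _ : Field (O ⧸ m) := Ideal.Quotient.field m
    have h1 := finite_of_finiteType (O ⧸ m)
    refine ⟨h1.1, ringChar (O ⧸ m), h1.2, ?_⟩
    rw [← Ideal.Quotient.eq_zero_iff_mem, map_natCast]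
    exact CharP.cast_eq_zero _ _
  obtain ⟨m, hm⟩ := Ideal.exists_maximal O
  obtain ⟨h1, p, hp, hpm⟩ := hres m hm
  have h2 : (⊥ : Ideal O).jacobson = ⊥ := by
    have hb : (⊥ : Ideal O).IsPrime := Ideal.isPrime_bot
    exact IsJacobsonRing.out inferInstance hb.isRadical
  have h3 : (p : O) ∉ (⊥ : Ideal O).jacobson := by
    rw [h2, Ideal.mem_bot]
    exact_mod_cast hp.ne_zero
  rw [Ideal.jacobson, Ideal.mem_sInf] at h3
  push Not at h3
  obtain ⟨m', ⟨-, hm'⟩, hpm'⟩ := h3
  obtain ⟨y, i, hi, hy⟩ := hm'.exists_inv hpm'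
  refine ⟨m, m', hm.ne_top, hm'.ne_top, h1, (hres m' hm').1, p, hp, hpm, y, ?_⟩
  have h4 : y * (p : O) - 1 = -i := by linear_combination hy
  rw [h4]
  exact neg_mem hi

end Pool.Agent.N77.PA
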