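import Pool.Agent.N77.PA.Aff
import Pool.Agent.N77.PA.BC
import Pool.Agent.N77.PA.Places

/-!
# Automorphisms of the affine plane and classes of groups closed under acylindrical actions on trees
-/

set_option autoImplicit false

open MvPolynomial

namespace Pool.Agent.N77.PA

open Pool.Agent.H922R2 (GA AG EG)

/-- closure properties of a class of groups: subgroups, overgroups of finite index, directed unions,
solvable groups, and acylindrical actions of countable groups on trees -/
structure AcylClass (C : ∀ (G : Type) [Group G], Prop) : Prop where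
  of_injective : ∀ (G H : Type) [Group G] [Group H] (f : G →* H), Function.Injective f → C H → C G
  finiteIndex : ∀ (G : Type) [Group G] (K : Subgroup G), K.FiniteIndex → C K → C G
  directed : ∀ (G : Type) [Group G],
    (∀ s : Finset G, C ↥(Subgroup.closure (s : Set G))) → C G
  solvable : ∀ (G : Type) [Group G], Group.IsSolvable G → C G
  tree : ∀ (G V : Type) [Group G] [Countable G] [MulAction G V] (T : SimpleGraph V), T.IsTree →
    (∀ (g : G) (v w : V), T.Adj v w → T.Adj (g • v) (g • w)) →
    (∀ (g : G) (v w : V), T.Adj v w → ¬ (g • v = w ∧ g • w = v)) →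
    (∃ n : ℕ, ∀ (g : G) (v w : V), n ≤ T.dist v w → g • v = v → g • w = w → g = 1) →
    (∀ v : V, C ↥(MulAction.stabilizer G v)) → C G

variable {C : ∀ (G : Type) [Group G], Prop}

/-- torsion-free groups of automorphisms of the affine plane over an algebraically closed field -/
theorem tf_case (hC : AcylClass C) {k : Type} [Field k] [CharZero k] [IsAlgClosed k]
    (hA : C (AG k)) (H : Type) [Group H] [Countable H] (ψ : H →* GA k)
    (hψ : Function.Injective ψ) (htf : ∀ (h : H) (n : ℕ), 0 < n → h ^ n = 1 → h = 1) : C H := by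
  let _ : MulAction H (Vx k) := MulAction.compHom (Vx k) ψ
  have hsm : ∀ (h : H) (v : Vx k), h • v = ψ h • v := fun h v => rfl
  refine hC.tree H (Vx k) (Tr k) Tr_isTree ?_ ?_ ⟨7, ?_⟩ ?_
  · intro h v w hvw
    exact Tr_smul (ψ h) v w hvw
  · rintro h v w hvw ⟨h1, h2⟩
    rw [hsm] at h1 h2
    obtain ⟨g, ⟨rfl, rfl⟩ | ⟨rfl, rfl⟩⟩ := hvw
    · exact absurd h1 (by
        show ¬ (Sum.inl _ : Vx k) = Sum.inr _
        simp)
    · exact absurd h1 (by
        show ¬ (Sum.inr _ : Vx k) = Sum.inl _
        simp)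
  · intro h v w hd hv hw
    obtain ⟨N, hN, hN1⟩ := dist_fin (ψ h) v w hd hv hw
    apply htf h N hN
    apply hψ
    rw [map_pow, hN1, map_one]
  · rintro (v | v)
    · obtain ⟨g, rfl⟩ := QuotientGroup.mk_surjective v
      refine hC.of_injective _ (AG k)
        (((MulAut.conj g⁻¹).toMonoidHom.comp (ψ.comp (Subgroup.subtype _))).codRestrict (AG k)
          (fun x => ?_)) ?_ hA
      · have h1 : ψ x.1 • (Sum.inl (g : GA k ⧸ AG k) : Vx k) = Sum.inl (g : GA k ⧸ AG k) := x.2
        rw [fix_inl] at h1
        show g⁻¹ * ψ x.1 * g⁻¹⁻¹ ∈ AG k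
        rwa [inv_inv]
      · intro x y hxy
        have h1 : g⁻¹ * ψ x.1 * g⁻¹⁻¹ = g⁻¹ * ψ y.1 * g⁻¹⁻¹ := congrArg Subtype.val hxy
        have h2 := mul_left_cancel (mul_right_cancel h1)
        exact Subtype.ext (hψ h2)
    · obtain ⟨g, rfl⟩ := QuotientGroup.mk_surjective v
      refine hC.of_injective _ (EG k)
        (((MulAut.conj g⁻¹).toMonoidHom.comp (ψ.comp (Subgroup.subtype _))).codRestrict (EG k)
          (fun x => ?_)) ?_ (hC.solvable _ EG_solvable)
      · have h1 : ψ x.1 • (Sum.inr (g : GA k ⧸ EG k) : Vx k) = Sum.inr (g : GA k ⧸ EG k) := x.2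
        rw [fix_inr] at h1
        show g⁻¹ * ψ x.1 * g⁻¹⁻¹ ∈ EG k
        rwa [inv_inv]
      · intro x y hxy
        have h1 : g⁻¹ * ψ x.1 * g⁻¹⁻¹ = g⁻¹ * ψ y.1 * g⁻¹⁻¹ := congrArg Subtype.val hxy
        have h2 := mul_left_cancel (mul_right_cancel h1)
        exact Subtype.ext (hψ h2)

theorem countable_mv {σ R : Type} [Countable σ] [CommRing R] [Countable R] :
    Countable (MvPolynomial σ R) := by
  rw [← Cardinal.mk_le_aleph0_iff]
  refine MvPolynomial.cardinalMk_le_max.trans (max_le (max_le ?_ ?_) le_rfl)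
  · exact Cardinal.mk_le_aleph0_iff.2 inferInstance
  · exact Cardinal.mk_le_aleph0_iff.2 inferInstance

/-- rings which are finitely generated over the integers -/
theorem fg_case (hC : AcylClass C) {k : Type} [Field k] [CharZero k] [IsAlgClosed k]
    (hA : C (AG k)) (O : Type) [CommRing O] [IsDomain O] [CharZero O] [Algebra.FiniteType ℤ O]
    (φ : O →+* k) (hφ : Function.Injective φ) : C (Au (Fin 2) O) := by
  have hN : IsNoetherianRing O := Algebra.FiniteType.isNoetherianRing ℤ O
  obtain ⟨m, m', hm, hm', f1, f2, p, hp, hpm, hpm'⟩ := ex_places O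
  obtain ⟨H1, hH1, hc1⟩ := ex_cong (σ := Fin 2) m
  obtain ⟨H2, hH2, hc2⟩ := ex_cong (σ := Fin 2) m'
  have hcount : Countable O := by
    obtain ⟨n, f, hf⟩ := Algebra.FiniteType.iff_quotient_mvPolynomial''.1
      (inferInstance : Algebra.FiniteType ℤ O)
    have : Countable (MvPolynomial (Fin n) ℤ) := countable_mv
    exact hf.countable
  have hcA : Countable (Au (Fin 2) O) := by
    have h1 : Countable (MvPolynomial (Fin 2) O) := countable_mv
    have h2 : Function.Injective (fun (g : Au (Fin 2) O) (i : Fin 2) => g (X i)) :=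
      fun g h hgh => au_ext (fun i => congrFun hgh i)
    exact h2.countable
  refine hC.finiteIndex _ (H1 ⊓ H2) inferInstance ?_
  refine tf_case hC hA _ ((bc φ).comp (Subgroup.subtype _))
    ((bc_injective φ hφ).comp (Subgroup.subtype_injective _)) ?_
  intro h n hn hh
  apply Subtype.ext
  refine cong_two hm hm' hp hpm hpm' (hc1 _ h.2.1) (hc2 _ h.2.2) hn ?_
  exact congrArg Subtype.val hh

/-- **the automorphism group of the affine plane** -/
theorem main (hC : AcylClass C) (K : Type) [Field K] [CharZero K]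
    (hGL : C (Matrix.GeneralLinearGroup (Fin 3) (AlgebraicClosure K))) : C (Au (Fin 2) K) := by
  classical
  have hA : C (AG (AlgebraicClosure K)) := hC.of_injective _ _ toGL toGL_injective hGL
  have hchar : CharZero (AlgebraicClosure K) :=
    charZero_of_injective_algebraMap (algebraMap K (AlgebraicClosure K)).injective
  refine hC.directed _ (fun s => ?_)
  -- the ring generated by the coefficients
  obtain ⟨F, hF⟩ : ∃ F : Set K, F.Finite ∧ ∀ g ∈ s, ∀ i : Fin 2,
      ((g (X i)).coeffs : Set K) ⊆ F ∧ ((g⁻¹ (X i)).coeffs : Set K) ⊆ F := by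
    refine ⟨⋃ g ∈ s, ⋃ i : Fin 2, (((g (X i)).coeffs : Set K) ∪ ((g⁻¹ (X i)).coeffs : Set K)),
      ?_, ?_⟩
    · refine Set.Finite.biUnion (Finset.finite_toSet s) (fun g _ => ?_)
      refine Set.finite_iUnion (fun i => ?_)
      exact (Finset.finite_toSet _).union (Finset.finite_toSet _)
    · intro g hg i
      constructor
      · intro x hx
        exact Set.mem_biUnion hg (Set.mem_iUnion.2 ⟨i, Or.inl hx⟩)
      · intro x hx
        exact Set.mem_biUnion hg (Set.mem_iUnion.2 ⟨i, Or.inr hx⟩)
  obtain ⟨hFfin, hF⟩ := hF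
  obtain ⟨O, hO⟩ : ∃ O : Subalgebra ℤ K, O = Algebra.adjoin ℤ F := ⟨_, rfl⟩
  have hft : Algebra.FiniteType ℤ O :=
    (Subalgebra.fg_iff_finiteType O).1 (Subalgebra.fg_def.2 ⟨F, hFfin, hO.symm⟩)
  have hFO : F ⊆ O := by
    rw [hO]
    exact Algebra.subset_adjoin
  have hcO : CharZero O := by
    refine ⟨fun a b h => ?_⟩
    have := congrArg Subtype.val h
    simpa using this
  have hinjK : Function.Injective (algebraMap O K) := Subtype.val_injective
  have hinjk : Function.Injective ((algebraMap K (AlgebraicClosure K)).comp (algebraMap O K)) :=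
    (algebraMap K (AlgebraicClosure K)).injective.comp hinjK
  have hCO : C (Au (Fin 2) O) := fg_case hC hA O _ hinjk
  -- the subgroup comes from `O`
  have hcoef : ∀ f : MvPolynomial (Fin 2) K, (f.coeffs : Set K) ⊆ F →
      f ∈ (MvPolynomial.map (algebraMap O K) : MvPolynomial (Fin 2) O →+* _).range := by
    intro f hf
    have h1 : f ∈ Set.range (MvPolynomial.map (σ := Fin 2) (algebraMap O K)) := by
      rw [MvPolynomial.mem_range_map_iff_coeffs_subset]
      intro x hx
      exact ⟨⟨x, hFO (hf hx)⟩, rfl⟩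
    exact h1
  have hle : Subgroup.closure (s : Set (Au (Fin 2) K)) ≤
      (bc (algebraMap O K) : Au (Fin 2) O →* Au (Fin 2) K).range := by
    rw [Subgroup.closure_le]
    intro g hg
    exact mem_range_bc _ hinjK g (fun i => hcoef _ (hF g hg i).1) (fun i => hcoef _ (hF g hg i).2)
  have hbij := (bc (σ := Fin 2) (algebraMap O K)).ofInjective (bc_injective _ hinjK)
  refine hC.of_injective _ _ (hbij.symm.toMonoidHom.comp (Subgroup.inclusion hle)) ?_ hCO
  exact hbij.symm.injective.comp (Subgroup.inclusion_injective hle)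

end Pool.Agent.N77.PA
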