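import Pool.Agent.N77.PA.Path

/-!
# The vertex groups of the tree
-/

set_option autoImplicit false

open MvPolynomial

namespace Pool.Agent.N77.PA

open Pool.Agent.H922R2

section solv

variable {k : Type*} [Field k]

theorem coeff_uy_X0 (P : Polynomial k) :
    coeff (Finsupp.single 0 1) (uy P : MvPolynomial (Fin 2) k) = 0 := by
  unfold uy
  rw [Polynomial.aeval_eq_sum_range, coeff_sum]
  apply Finset.sum_eq_zero
  intro i _
  rw [coeff_smul, X_pow_eq_monomial, coeff_monomial, if_neg, smul_zero]
  intro h
  have := DFunLike.congr_fun h 0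
  simp at this

theorem zero_ne_s : ((0 : Fin 2 →₀ ℕ) = Finsupp.single 1 1) = False := by
  rw [eq_iff_iff, iff_false]
  intro h
  have := DFunLike.congr_fun h 1
  simp at this

variable [CharZero k]

/-- the two characters of the triangular group -/
noncomputable def chi0 : EG k →* k where
  toFun g := coeff (Finsupp.single 0 1) ((g : GA k) (X 0))
  map_one' := by simp
  map_mul' g h := by
    obtain ⟨a, b, c, P, -, -, h0, h1⟩ := EG_forms g.2
    obtain ⟨a', b', c', P', -, -, h0', h1'⟩ := EG_forms h.2
    have e1 : ((g * h : EG k) : GA k) (X 0) = (g : GA k) ((h : GA k) (X 0)) := rfl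
    rw [e1, h0', map_add, map_mul, ga_C', gmap_uy, h1, h0]
    have e2 : (Polynomial.aeval (C b * X 1 + C c : MvPolynomial (Fin 2) k)) P' =
        uy (P'.comp (Polynomial.C b * Polynomial.X + Polynomial.C c)) := by
      rw [← uy_comp]
      congr 1
      simp [uy, algebraMap_eq]
    rw [e2]
    simp [coeff_uy_X0, coeff_C_mul]
    ring

noncomputable def chi1 : EG k →* k where
  toFun g := coeff (Finsupp.single 1 1) ((g : GA k) (X 1))
  map_one' := by simp
  map_mul' g h := by
    obtain ⟨a, b, c, P, -, -, h0, h1⟩ := EG_forms g.2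
    obtain ⟨a', b', c', P', -, -, h0', h1'⟩ := EG_forms h.2
    have e1 : ((g * h : EG k) : GA k) (X 1) = (g : GA k) ((h : GA k) (X 1)) := rfl
    rw [e1, h1', map_add, map_mul, ga_C', ga_C', h1]
    simp [coeff_C_mul, coeff_C, zero_ne_s]
    ring

/-- the unipotent part -/
theorem ker_form {g : EG k} (h0 : chi0 g = 1) (h1 : chi1 g = 1) :
    ∃ (c : k) (P : Polynomial k), (g : GA k) (X 0) = X 0 + uy P ∧ (g : GA k) (X 1) = X 1 + C c := by
  obtain ⟨a, b, c, P, -, -, e0, e1⟩ := EG_forms g.2
  have h0' : coeff (Finsupp.single 0 1) ((g : GA k) (X 0)) = 1 := h0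
  have h1' : coeff (Finsupp.single 1 1) ((g : GA k) (X 1)) = 1 := h1
  rw [e0] at h0'
  rw [e1] at h1'
  have ha : a = 1 := by simpa [coeff_uy_X0, coeff_C_mul] using h0'
  have hb : b = 1 := by simpa [coeff_C_mul, coeff_C, zero_ne_s] using h1'
  refine ⟨c, P, ?_, ?_⟩
  · rw [e0, ha]; simp
  · rw [e1, hb]; simp

/-- the unipotent triangular group -/
noncomputable def UG : Subgroup (EG k) := (chi0.toHomUnits.prod chi1.toHomUnits).ker

theorem UG_form (g : EG k) (hg : g ∈ UG (k := k)) :
    ∃ (c : k) (P : Polynomial k), (g : GA k) (X 0) = X 0 + uy P ∧ (g : GA k) (X 1) = X 1 + C c := by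
  have h1 : (chi0.toHomUnits.prod chi1.toHomUnits) g = 1 := hg
  have h2 : chi0.toHomUnits g = 1 := congrArg Prod.fst h1
  have h3 : chi1.toHomUnits g = 1 := congrArg Prod.snd h1
  refine ker_form ?_ ?_
  · exact congrArg Units.val h2
  · exact congrArg Units.val h3

/-- the translation part -/
noncomputable def tau : UG (k := k) →* Multiplicative k where
  toFun g := Multiplicative.ofAdd (coeff 0 (((g : EG k) : GA k) (X 1)))
  map_one' := by simp
  map_mul' g h := by
    obtain ⟨c, P, h0, h1⟩ := UG_form g.1 g.2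
    obtain ⟨c', P', h0', h1'⟩ := UG_form h.1 h.2
    have e1 : (((g * h : UG (k := k)) : EG k) : GA k) (X 1) =
      ((g : EG k) : GA k) (((h : EG k) : GA k) (X 1)) := rfl
    rw [e1, h1', map_add, ga_C', h1]
    simp [← ofAdd_add]

theorem ker_tau_comm (g h : (tau (k := k)).ker) : g * h = h * g := by
  have key : ∀ g : (tau (k := k)).ker, ∃ P : Polynomial k,
      (((g : UG (k := k)) : EG k) : GA k) (X 0) = X 0 + uy P ∧
      (((g : UG (k := k)) : EG k) : GA k) (X 1) = X 1 := by
    intro g
    obtain ⟨c, P, h0, h1⟩ := UG_form g.1.1 g.1.2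
    have h2 : coeff 0 (((g.1 : EG k) : GA k) (X 1)) = 0 := by
      have := g.2
      rw [MonoidHom.mem_ker] at this
      exact Multiplicative.ofAdd.injective this
    rw [h1] at h2
    have hc : c = 0 := by simpa using h2
    exact ⟨P, h0, by rw [h1, hc]; simp⟩
  obtain ⟨P, h0, h1⟩ := key g
  obtain ⟨P', h0', h1'⟩ := key h
  apply Subtype.ext
  apply Subtype.ext
  apply Subtype.ext
  apply ga_ext
  · show (((g : UG (k := k)) : EG k) : GA k) ((((h : UG (k := k)) : EG k) : GA k) (X 0)) =
      (((h : UG (k := k)) : EG k) : GA k) ((((g : UG (k := k)) : EG k) : GA k) (X 0))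
    rw [h0, h0', map_add, map_add, gmap_uy, gmap_uy, h1, h1', h0, h0']
    unfold uy
    ring
  · show (((g : UG (k := k)) : EG k) : GA k) ((((h : UG (k := k)) : EG k) : GA k) (X 1)) =
      (((h : UG (k := k)) : EG k) : GA k) ((((g : UG (k := k)) : EG k) : GA k) (X 1))
    rw [h1, h1', h1]
/-- the triangular group is solvable -/
theorem EG_solvable : Group.IsSolvable (EG k) := by
  have h1 : Group.IsSolvable (tau (k := k)).ker := Group.isSolvable_of_comm ker_tau_comm
  have h2 : Group.IsSolvable (UG (k := k)) :=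
    Group.isSolvable_of_ker_le_range (tau (k := k)).ker.subtype (tau (k := k))
      (by rw [Subgroup.range_subtype])
  exact Group.isSolvable_of_ker_le_range (UG (k := k)).subtype (chi0.toHomUnits.prod chi1.toHomUnits)
      (by rw [Subgroup.range_subtype]; rfl)

end solv

section aff

variable {k : Type*} [Field k]

/-- the basis of the space of affine polynomials -/
noncomputable def vv : Fin 3 → MvPolynomial (Fin 2) k := ![1, X 0, X 1]

theorem vv_li : LinearIndependent k (vv (k := k)) := by
  rw [Fintype.linearIndependent_iff]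
  intro g hg
  rw [Fin.sum_univ_three] at hg
  have h1 : (C (g 1) * X 0 + C (g 2) * X 1 + C (g 0) : MvPolynomial (Fin 2) k) =
      C 0 * X 0 + C 0 * X 1 + C 0 := by
    have hg' : (C (g 0) * 1 + C (g 1) * X 0 + C (g 2) * X 1 : MvPolynomial (Fin 2) k) = 0 := by
      rw [← hg]
      simp [vv, smul_eq_C_mul]
    simp only [C_0]
    linear_combination hg'
  obtain ⟨h2, h3, h4⟩ := lin_ext h1
  intro i
  fin_cases i
  · exact h4
  · exact h2
  · exact h3

theorem span_vv : Submodule.span k (Set.range (vv (k := k))) = Wsub k := by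
  unfold Wsub vv
  congr 1
  ext x
  simp only [Set.mem_range, Fin.exists_fin_succ, Set.mem_insert_iff, Set.mem_singleton_iff]
  simp
  tauto

noncomputable def bW : Module.Basis (Fin 3) k (Wsub k) :=
  (Module.Basis.span (vv_li (k := k))).map (LinearEquiv.ofEq _ _ span_vv)

/-- the action on the affine polynomials -/
noncomputable def actW : AG k →* Module.End k (Wsub k) where
  toFun g := (g : GA k).toLinearMap.restrict (p := Wsub k) (q := Wsub k) (fun x hx => by
    have h : (Wsub k).map (g : GA k).toLinearMap = Wsub k := g.2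
    rw [← h]
    exact ⟨x, hx, rfl⟩)
  map_one' := by
    ext x
    rfl
  map_mul' g h := by
    ext x
    rfl

/-- the embedding of the affine group in `GL₃` -/
noncomputable def toGL : AG k →* Matrix.GeneralLinearGroup (Fin 3) k :=
  ((LinearMap.toMatrixAlgEquiv (bW (k := k)) : Module.End k (Wsub k) →*
    Matrix (Fin 3) (Fin 3) k).comp actW).toHomUnits

theorem toGL_injective : Function.Injective (toGL (k := k)) := by
  rw [injective_iff_map_eq_one]
  intro g hg
  have h1 : LinearMap.toMatrixAlgEquiv (bW (k := k)) (actW g) = 1 := congrArg Units.val hg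
  have h2 : actW g = 1 := by
    apply (LinearMap.toMatrixAlgEquiv (bW (k := k))).injective
    rw [h1, map_one]
  have h3 : ∀ x ∈ Wsub k, (g : GA k) x = x := by
    intro x hx
    have h4 := DFunLike.congr_fun h2 ⟨x, hx⟩
    exact congrArg Subtype.val h4
  apply Subtype.ext
  apply ga_ext
  · exact h3 _ (Submodule.subset_span (by simp))
  · exact h3 _ (Submodule.subset_span (by simp))

end aff

end Pool.Agent.N77.PA
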