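import Pool.Agent.N77.PA.Tree

/-!
# Automorphisms of the affine plane which fix a long path have finite order
-/

set_option autoImplicit false

open MvPolynomial

namespace Pool.Agent.N77.PA

open Pool.Agent.H922R2

section fix

variable {k : Type*} [Field k]

theorem lin_ext {s t r s' t' r' : k}
    (h : (C s * X 0 + C t * X 1 + C r : MvPolynomial (Fin 2) k) = C s' * X 0 + C t' * X 1 + C r') :
    s = s' ∧ t = t' ∧ r = r' := by
  have e0 := congrArg (pderiv 0) h
  have e1 := congrArg (pderiv 1) h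
  simp at e0 e1
  refine ⟨e0, e1, ?_⟩
  rw [e0, e1] at h
  exact C_injective _ _ (add_left_cancel h)

theorem tri_ext {s s' : k} {P P' : Polynomial k}
    (h : (C s * X 0 + uy P : MvPolynomial (Fin 2) k) = C s' * X 0 + uy P') : s = s' ∧ P = P' := by
  have hy : ∀ P : Polynomial k, pderiv 0 (uy P : MvPolynomial (Fin 2) k) = 0 := by
    intro P
    unfold uy
    rw [Derivation.map_aeval]
    simp
  have e0 := congrArg (pderiv 0) h
  have h1 : s = s' := by simpa [hy] using e0
  rw [h1] at h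
  exact ⟨h1, uy_injective (add_left_cancel h)⟩

/-- an affine automorphism which is not triangular is in the big cell -/
theorem bruhat {a : GA k} (ha : a ∈ AG k) (ha' : a ∉ EG k) :
    ∃ b ∈ AG k, b ∈ EG k ∧ ∃ b' ∈ AG k, b' ∈ EG k ∧ a = b * sw * b' := by
  obtain ⟨p, q, r, hp, h⟩ := AG_not_EG ha ha'
  have hpp : (C p⁻¹ * C p : MvPolynomial (Fin 2) k) = 1 := by
    rw [← C_mul, inv_mul_cancel₀ hp, C_1]
  obtain ⟨b, hb0, hb1⟩ : ∃ b : GA k, b (X 0) = C p * X 0 + C q * X 1 + C r ∧ b (X 1) = X 1 := by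
    refine ⟨mkGA (C p * X 0 + C q * X 1 + C r) (X 1) (C p⁻¹ * (X 0 - C q * X 1 - C r)) (X 1)
      ?_ ?_ ?_ ?_, mkGA_X0 _ _ _ _ _ _ _ _, mkGA_X1 _ _ _ _ _ _ _ _⟩
    · simp only [map_mul, map_sub, aeval_X, algHom_C, algebraMap_eq, Matrix.cons_val_zero,
        Matrix.cons_val_one]
      linear_combination (X 0 : MvPolynomial (Fin 2) k) * hpp
    · simp
    · simp only [map_mul, map_add, aeval_X, algHom_C, algebraMap_eq, Matrix.cons_val_zero,
        Matrix.cons_val_one]
      linear_combination (X 0 - C q * X 1 - C r : MvPolynomial (Fin 2) k) * hpp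
    · simp
  have hbA : b ∈ AG k := by
    apply mem_AG_of
    · rw [hb0, mem_Wsub]
      exact ⟨p, q, r, rfl⟩
    · rw [hb1, mem_Wsub]
      exact ⟨0, 1, 0, by simp⟩
  have hbE : b ∈ EG k := mem_EG_of (b := 1) (c := 0) one_ne_zero (by rw [hb1]; simp)
  have hss : (sw : GA k) * sw = 1 := by
    apply ga_ext
    · change sw (sw (X 0)) = X 0; rw [sw_sw]
    · change sw (sw (X 1)) = X 1; rw [sw_sw]
  refine ⟨b, hbA, hbE, sw * b⁻¹ * a, mul_mem (mul_mem sw_mem_AG (inv_mem hbA)) ha, ?_, ?_⟩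
  · apply mem_EG_of (b := 1) (c := 0) one_ne_zero
    change sw (b⁻¹ (a (X 1))) = _
    rw [h, ← hb0]
    have h1 : b⁻¹ (b (X 0)) = X 0 := b.symm_apply_apply _
    rw [h1, sw_X0]
    simp
  · calc a = b * (sw * sw) * b⁻¹ * a := by rw [hss]; group
      _ = b * sw * (sw * b⁻¹ * a) := by group

variable [CharZero k]

/-- the condition for one side of the path -/
theorem side {g e a : GA k} {α γ δ ε : k} (hg0 : g (X 0) = C α * X 0 + C γ)
    (hg1 : g (X 1) = C δ * X 1 + C ε) (hδ : δ ≠ 0) (he : e ∈ EG k) (he' : e ∉ AG k)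
    (ha : a ∈ AG k) (ha' : a ∉ EG k) (h1 : e⁻¹ * g * e ∈ AG k)
    (h2 : a⁻¹ * (e⁻¹ * g * e) * a ∈ EG k) : (∃ n, 2 ≤ n ∧ δ ^ n = α) ∧ (δ = 1 → ε = 0) := by
  obtain ⟨s, b, c, P, hs, hb, he0, he1, hP⟩ := EG_not_AG he he'
  have hgE : g ∈ EG k := mem_EG_of hδ hg1
  obtain ⟨u, hu⟩ : ∃ u : GA k, u = e⁻¹ * g * e := ⟨_, rfl⟩
  rw [← hu] at h1 h2
  have huE : u ∈ EG k := by
    rw [hu]
    exact mul_mem (mul_mem (inv_mem he) hgE) he
  have hge : g * e = e * u := by rw [hu]; group
  obtain ⟨c1, c2, c3, hu0⟩ := mem_Wsub.1 (AG_forms h1).1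
  obtain ⟨-, v1, v2, -, -, -, -, hu1⟩ := EG_forms huE
  -- the second coordinate
  have e1 : g (e (X 1)) = e (u (X 1)) := by
    rw [← AlgEquiv.mul_apply, ← AlgEquiv.mul_apply, hge]
  rw [he1, hu1, map_add, map_mul, map_add, map_mul, ga_C', ga_C', ga_C', ga_C', hg1, he1] at e1
  have e1' : (C 0 * X 0 + C (b * δ) * X 1 + C (b * ε + c) : MvPolynomial (Fin 2) k) =
      C 0 * X 0 + C (v1 * b) * X 1 + C (v1 * c + v2) := by
    simp only [C_mul, C_add, C_0]
    linear_combination e1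
  have hv1 : v1 = δ := by
    have h3 := (lin_ext e1').2.1
    rw [mul_comm] at h3
    exact (mul_right_cancel₀ hb h3).symm
  -- the first coordinate
  have e0 : g (e (X 0)) = e (u (X 0)) := by
    rw [← AlgEquiv.mul_apply, ← AlgEquiv.mul_apply, hge]
  have hgP : g (uy P) = uy (P.comp (Polynomial.C δ * Polynomial.X + Polynomial.C ε)) := by
    rw [gmap_uy, hg1, ← uy_comp]
    congr 1
    simp [uy, algebraMap_eq]
  rw [he0, hu0, map_add, map_mul, map_add, map_add, map_mul, map_mul, ga_C', ga_C', ga_C', ga_C',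
    hg0, he0, he1, hgP] at e0
  have uyl : ∀ s t : k, (uy (Polynomial.C s * Polynomial.X + Polynomial.C t) :
      MvPolynomial (Fin 2) k) = C s * X 1 + C t := by
    intro s t
    simp [uy, algebraMap_eq]
  have uya : ∀ A B : Polynomial k, (uy (A + B) : MvPolynomial (Fin 2) k) = uy A + uy B := by
    intro A B
    simp [uy]
  have uym : ∀ (s : k) (B : Polynomial k), (uy (Polynomial.C s * B) : MvPolynomial (Fin 2) k) =
      C s * uy B := by
    intro A B
    simp [uy, algebraMap_eq]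
  have e0' : (C (s * α) * X 0 + uy (P.comp (Polynomial.C δ * Polynomial.X + Polynomial.C ε) +
      (Polynomial.C 0 * Polynomial.X + Polynomial.C (s * γ))) : MvPolynomial (Fin 2) k) =
      C (c1 * s) * X 0 + uy (Polynomial.C c1 * P +
        (Polynomial.C (c2 * b) * Polynomial.X + Polynomial.C (c2 * c + c3))) := by
    rw [uya (P.comp _), uya (Polynomial.C c1 * P), uyl, uyl, uym]
    simp only [C_mul, C_add, C_0]
    linear_combination e0
  obtain ⟨h3, h4⟩ := tri_ext e0'
  have hc1 : c1 = α := by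
    rw [mul_comm] at h3
    exact (mul_right_cancel₀ hs h3).symm
  rw [hc1] at h4
  have hP0 : P ≠ 0 := by
    rintro rfl
    simp at hP
  have hlin : (Polynomial.C δ * Polynomial.X + Polynomial.C ε : Polynomial k).natDegree = 1 :=
    Polynomial.natDegree_linear hδ
  have hcoef2 : ∀ (s t : k) (n : ℕ), 2 ≤ n →
      (Polynomial.C s * Polynomial.X + Polynomial.C t : Polynomial k).coeff n = 0 := by
    intro s t n hn
    apply Polynomial.coeff_eq_zero_of_natDegree_lt
    exact lt_of_le_of_lt Polynomial.natDegree_linear_le (by omega)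
  have hδn : δ ^ P.natDegree = α := by
    have h5 := congrArg (fun Q => Polynomial.coeff Q P.natDegree) h4
    beta_reduce at h5
    have h6 : (P.comp (Polynomial.C δ * Polynomial.X + Polynomial.C ε)).coeff P.natDegree =
        P.leadingCoeff * δ ^ P.natDegree := by
      have h7 := Polynomial.coeff_comp_degree_mul_degree (p := P)
        (q := Polynomial.C δ * Polynomial.X + Polynomial.C ε) (by rw [hlin]; exact one_ne_zero)
      rw [hlin, mul_one] at h7
      rw [h7, Polynomial.leadingCoeff_linear hδ]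
    rw [Polynomial.coeff_add, h6, hcoef2 _ _ _ hP, Polynomial.coeff_add, hcoef2 _ _ _ hP, add_zero,
      add_zero, Polynomial.coeff_C_mul] at h5
    have h8 : P.leadingCoeff * δ ^ P.natDegree = P.leadingCoeff * α := by
      rw [h5, mul_comm]
      rfl
    exact mul_left_cancel₀ (Polynomial.leadingCoeff_ne_zero.2 hP0) h8
  refine ⟨⟨P.natDegree, hP, hδn⟩, fun hδ1 => ?_⟩
  subst hδ1
  rw [one_pow] at hδn
  subst hδn
  -- the linear part is trivial
  have hc2 : c2 = 0 := by
    obtain ⟨p, q, r, hp, ha1⟩ := AG_not_EG ha ha'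
    obtain ⟨t, ht⟩ : ∃ t : GA k, t = a⁻¹ * u * a := ⟨_, rfl⟩
    rw [← ht] at h2
    have hua : u * a = a * t := by rw [ht]; group
    obtain ⟨-, t1, t2, -, -, -, -, ht1⟩ := EG_forms h2
    have e2 : u (a (X 1)) = a (t (X 1)) := by
      rw [← AlgEquiv.mul_apply, ← AlgEquiv.mul_apply, hua]
    rw [ha1, ht1, map_add, map_add, map_mul, map_mul, map_add, map_mul, ga_C', ga_C', ga_C', ga_C',
      ga_C', hu0, hu1, ha1, hc1, hv1] at e2
    have e2' : (C (p * 1) * X 0 + C (p * c2 + q * 1) * X 1 + C (p * c3 + q * v2 + r) :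
        MvPolynomial (Fin 2) k) = C (t1 * p) * X 0 + C (t1 * q) * X 1 + C (t1 * r + t2) := by
      simp only [C_mul, C_add, C_1]
      simp only [C_1] at e2
      linear_combination e2
    obtain ⟨h5, h6, -⟩ := lin_ext e2'
    have ht1 : t1 = 1 := by
      rw [mul_comm] at h5
      exact (mul_right_cancel₀ hp h5).symm
    rw [ht1] at h6
    have h7 : p * c2 = 0 := by linear_combination h6
    exact (mul_eq_zero.1 h7).resolve_left hp
  -- compare the next coefficient
  rw [hc2] at h4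
  have h5 := congrArg (fun Q => Polynomial.coeff Q (P.natDegree - 1)) h4
  simp only [Polynomial.coeff_add, Polynomial.coeff_C_mul, one_mul, zero_mul] at h5
  have hn1 : P.natDegree - 1 ≠ 0 := by omega
  have hC0 : ∀ s : k, (Polynomial.C s : Polynomial k).coeff (P.natDegree - 1) = 0 := by
    intro s
    rw [Polynomial.coeff_C, if_neg hn1]
  rw [hC0, hC0] at h5
  simp only [add_zero] at h5
  have h6 : P.comp (Polynomial.C 1 * Polynomial.X + Polynomial.C ε) = Polynomial.taylor ε P := by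
    rw [Polynomial.taylor_apply]
    simp
  rw [h6, Polynomial.taylor_coeff] at h5
  have h7 : (Polynomial.hasseDeriv (P.natDegree - 1) P).eval ε =
      P.coeff (P.natDegree - 1) + P.natDegree * P.leadingCoeff * ε := by
    have h8 : (Polynomial.hasseDeriv (P.natDegree - 1) P).natDegree ≤ 1 :=
      (Polynomial.natDegree_hasseDeriv_le _ _).trans (by omega)
    rw [Polynomial.eq_X_add_C_of_natDegree_le_one h8]
    simp only [Polynomial.eval_add, Polynomial.eval_mul, Polynomial.eval_C, Polynomial.eval_X,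
      Polynomial.hasseDeriv_coeff]
    have h9 : 1 + (P.natDegree - 1) = P.natDegree := by omega
    have h10 : (P.natDegree).choose (P.natDegree - 1) = P.natDegree := by
      obtain ⟨m, hm⟩ : ∃ m, P.natDegree = m + 1 := ⟨P.natDegree - 1, by omega⟩
      rw [hm, Nat.add_sub_cancel, Nat.choose_succ_self_right]
    rw [h9, h10, zero_add, Nat.choose_self]
    push_cast
    rw [Polynomial.leadingCoeff]
    ring
  rw [h7] at h5
  have h8 : (P.natDegree : k) * P.leadingCoeff * ε = 0 := by linear_combination h5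
  rcases mul_eq_zero.1 h8 with h9 | h9
  · rcases mul_eq_zero.1 h9 with h10 | h10
    · have : P.natDegree = 0 := by exact_mod_cast h10
      omega
    · exact absurd h10 (Polynomial.leadingCoeff_ne_zero.2 hP0)
  · exact h9

omit [CharZero k] in
/-- powers of a diagonal affine map -/
theorem diag_pow {g : GA k} {δ ε : k} {i : Fin 2} (h : g (X i) = C δ * X i + C ε) (n : ℕ) :
    (g ^ n) (X i) = C (δ ^ n) * X i + C (ε * ∑ j ∈ Finset.range n, δ ^ j) := by
  induction n with
  | zero => simp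
  | succ n ih =>
    rw [pow_succ', AlgEquiv.mul_apply, ih, map_add, map_mul, ga_C', ga_C', h, pow_succ,
      Finset.sum_range_succ, C_mul, C_mul, C_mul, C_add]
    ring

omit [CharZero k] in
theorem diag_fin {g : GA k} {α γ δ ε : k} (hg0 : g (X 0) = C α * X 0 + C γ)
    (hg1 : g (X 1) = C δ * X 1 + C ε) (hδ : δ ≠ 0) (h1 : ∃ n, 2 ≤ n ∧ δ ^ n = α)
    (h2 : δ = 1 → ε = 0) (h3 : ∃ n, 2 ≤ n ∧ α ^ n = δ) (h4 : α = 1 → γ = 0) :
    ∃ N, 0 < N ∧ g ^ N = 1 := by
  obtain ⟨n, hn, h1⟩ := h1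
  obtain ⟨m, hm, h3⟩ := h3
  have hnm : 4 ≤ n * m := by nlinarith
  have hδN : δ ^ (n * m - 1) = 1 := by
    have h5 : δ ^ (n * m - 1) * δ = 1 * δ := by
      rw [← pow_succ, Nat.sub_add_cancel (by omega), pow_mul, h1, h3, one_mul]
    exact mul_right_cancel₀ hδ h5
  have hαN : α ^ (n * m - 1) = 1 := by
    rw [← h1, ← pow_mul, mul_comm, pow_mul, hδN, one_pow]
  have key : ∀ {δ ε : k}, (δ = 1 → ε = 0) → δ ^ (n * m - 1) = 1 →
      ε * ∑ j ∈ Finset.range (n * m - 1), δ ^ j = 0 := by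
    intro δ ε h5 h6
    by_cases h7 : δ = 1
    · rw [h5 h7, zero_mul]
    · have h8 := geom_sum_mul δ (n * m - 1)
      rw [h6, sub_self] at h8
      rw [(mul_eq_zero.1 h8).resolve_right (sub_ne_zero.2 h7), mul_zero]
  refine ⟨n * m - 1, by omega, ?_⟩
  apply ga_ext
  · rw [diag_pow hg0, hαN, key h4 hαN]
    simp
  · rw [diag_pow hg1, hδN, key h2 hδN]
    simp

omit [CharZero k] in
theorem sw_inv : (sw : GA k)⁻¹ = sw := by
  have hss : (sw : GA k) * sw = 1 := by
    apply ga_ext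
    · change sw (sw (X 0)) = X 0; rw [sw_sw]
    · change sw (sw (X 1)) = X 1; rw [sw_sw]
  exact inv_eq_of_mul_eq_one_left hss

/-- **the elements which fix a path of length 6** have finite order -/
theorem path_fin {g h a e a' e' a'' : GA k} (ha : a ∈ AG k) (ha' : a ∉ EG k) (he : e ∈ EG k)
    (he' : e ∉ AG k) (hb : a' ∈ AG k) (hb' : a' ∉ EG k) (hf : e' ∈ EG k) (hf' : e' ∉ AG k)
    (hd : a'' ∈ AG k) (hd' : a'' ∉ EG k)
    (f1 : h⁻¹ * g * h ∈ AG k) (f2 : h⁻¹ * g * h ∈ EG k)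
    (f3 : (h * a)⁻¹ * g * (h * a) ∈ EG k)
    (f4 : (h * a * e')⁻¹ * g * (h * a * e') ∈ AG k)
    (f5 : (h * a * e' * a'')⁻¹ * g * (h * a * e' * a'') ∈ EG k)
    (f6 : (h * e)⁻¹ * g * (h * e) ∈ AG k)
    (f7 : (h * e * a')⁻¹ * g * (h * e * a') ∈ EG k) : ∃ N, 0 < N ∧ g ^ N = 1 := by
  obtain ⟨b, hbA, hbE, c, hcA, hcE, rfl⟩ := bruhat ha ha'
  obtain ⟨u, hu⟩ : ∃ u : GA k, u = (h * b)⁻¹ * g * (h * b) := ⟨_, rfl⟩
  have huA : u ∈ AG k := by
    have : u = b⁻¹ * (h⁻¹ * g * h) * b := by rw [hu]; group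
    rw [this]
    exact mul_mem (mul_mem (inv_mem hbA) f1) hbA
  have huE : u ∈ EG k := by
    have : u = b⁻¹ * (h⁻¹ * g * h) * b := by rw [hu]; group
    rw [this]
    exact mul_mem (mul_mem (inv_mem hbE) f2) hbE
  obtain ⟨w, hw⟩ : ∃ w : GA k, w = sw⁻¹ * u * sw := ⟨_, rfl⟩
  have hwE : w ∈ EG k := by
    have : w = c * ((h * (b * sw * c))⁻¹ * g * (h * (b * sw * c))) * c⁻¹ := by
      rw [hw, hu]; group
    rw [this]
    exact mul_mem (mul_mem hcE f3) (inv_mem hcE)
  obtain ⟨-, δ, ε, -, -, hδ, -, hu1⟩ := EG_forms huE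
  obtain ⟨-, α, γ, -, -, hα, -, hw1⟩ := EG_forms hwE
  have hu0 : u (X 0) = C α * X 0 + C γ := by
    have h1 : w (X 1) = sw (u (X 0)) := by
      rw [hw, sw_inv]
      change sw (u (sw (X 1))) = _
      rw [sw_X1]
    have h2 : u (X 0) = sw (w (X 1)) := by rw [h1, sw_sw]
    rw [h2, hw1, map_add, map_mul, ga_C', ga_C', sw_X1]
  have hw0 : w (X 0) = C δ * X 0 + C ε := by
    rw [hw, sw_inv]
    change sw (u (sw (X 0))) = _
    rw [sw_X0, hu1, map_add, map_mul, ga_C', ga_C', sw_X1]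
  have s1 := side (g := u) (e := b⁻¹ * e) (a := a') hu0 hu1 hδ (mul_mem (inv_mem hbE) he)
    (fun h1 => he' (by
      have h2 := mul_mem hbA h1
      rwa [mul_inv_cancel_left] at h2)) hb hb'
    (by
      have : (b⁻¹ * e)⁻¹ * u * (b⁻¹ * e) = (h * e)⁻¹ * g * (h * e) := by rw [hu]; group
      rw [this]
      exact f6)
    (by
      have : a'⁻¹ * ((b⁻¹ * e)⁻¹ * u * (b⁻¹ * e)) * a' = (h * e * a')⁻¹ * g * (h * e * a') := by
        rw [hu]; group
      rw [this]
      exact f7)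
  have s2 := side (g := w) (e := c * e') (a := a'') hw0 hw1 hα (mul_mem hcE hf)
    (fun h1 => hf' (by
      have h2 := mul_mem (inv_mem hcA) h1
      rwa [inv_mul_cancel_left] at h2)) hd hd'
    (by
      have : (c * e')⁻¹ * w * (c * e') =
          (h * (b * sw * c) * e')⁻¹ * g * (h * (b * sw * c) * e') := by rw [hw, hu]; group
      rw [this]
      exact f4)
    (by
      have : a''⁻¹ * ((c * e')⁻¹ * w * (c * e')) * a'' =
          (h * (b * sw * c) * e' * a'')⁻¹ * g * (h * (b * sw * c) * e' * a'') := by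
        rw [hw, hu]; group
      rw [this]
      exact f5)
  obtain ⟨N, hN, hN1⟩ := diag_fin hu0 hu1 hδ s1.1 s1.2 s2.1 s2.2
  refine ⟨N, hN, ?_⟩
  have h3 : g = (h * b) * u * (h * b)⁻¹ := by rw [hu]; group
  rw [h3, conj_pow, hN1]
  group

end fix

end Pool.Agent.N77.PA
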