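import Pool.Agent.N77.PA.Fix

/-!
# Elements which fix two distant vertices have finite order
-/

set_option autoImplicit false

open MvPolynomial

namespace Pool.Agent.N77.PA

open Pool.Agent.H922R2

section path

variable {k : Type*} [Field k]

theorem fix_inl {g h : GA k} : g • (Sum.inl (h : GA k ⧸ AG k) : Vx k) = Sum.inl (h : GA k ⧸ AG k) ↔
    h⁻¹ * g * h ∈ AG k := by
  have h1 : g • (Sum.inl (h : GA k ⧸ AG k) : Vx k) = Sum.inl ((g * h : GA k) : GA k ⧸ AG k) := rfl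
  rw [h1, Sum.inl.injEq, eq_comm, QuotientGroup.eq, mul_assoc]

theorem fix_inr {g h : GA k} : g • (Sum.inr (h : GA k ⧸ EG k) : Vx k) = Sum.inr (h : GA k ⧸ EG k) ↔
    h⁻¹ * g * h ∈ EG k := by
  have h1 : g • (Sum.inr (h : GA k ⧸ EG k) : Vx k) = Sum.inr ((g * h : GA k) : GA k ⧸ EG k) := rfl
  rw [h1, Sum.inr.injEq, eq_comm, QuotientGroup.eq, mul_assoc]

theorem adj_inl {g : GA k} {y : Vx k} (h : (Tr k).Adj (Sum.inl (g : GA k ⧸ AG k)) y) :
    ∃ a ∈ AG k, y = Sum.inr ((g * a : GA k) : GA k ⧸ EG k) := by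
  rcases y with y | y
  · exact absurd h (by rintro ⟨g, ⟨h5, h6⟩ | ⟨h5, h6⟩⟩ <;> simp at h5 h6)
  · obtain ⟨y, rfl⟩ := QuotientGroup.mk_surjective y
    obtain ⟨a, ha, h1⟩ := (adj_lr _ _).1 h
    exact ⟨a, ha, by rw [h1]⟩

theorem adj_inr {g : GA k} {y : Vx k} (h : (Tr k).Adj (Sum.inr (g : GA k ⧸ EG k)) y) :
    ∃ e ∈ EG k, y = Sum.inl ((g * e : GA k) : GA k ⧸ AG k) := by
  rcases y with y | y
  · obtain ⟨y, rfl⟩ := QuotientGroup.mk_surjective y
    obtain ⟨a, ha, h1⟩ := (adj_rl _ _).1 h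
    exact ⟨a, ha, by rw [h1]⟩
  · exact absurd h (by rintro ⟨g, ⟨h5, h6⟩ | ⟨h5, h6⟩⟩ <;> simp at h5 h6)

theorem seven [CharZero k] (g : GA k) (x : ℕ → Vx k) (hx0 : ∃ q, x 0 = Sum.inr q)
    (hadj : ∀ i < 6, (Tr k).Adj (x i) (x (i + 1))) (hne : ∀ i < 5, x i ≠ x (i + 2))
    (hfix : ∀ i ≤ 6, g • x i = x i) : ∃ N, 0 < N ∧ g ^ N = 1 := by
  -- the types of the vertices
  obtain ⟨q, hq⟩ := hx0
  obtain ⟨h0, rfl⟩ := QuotientGroup.mk_surjective q
  have a0 := hadj 0 (by norm_num)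
  rw [hq] at a0
  obtain ⟨e1, -, hx1⟩ := adj_inr a0
  have a1 := hadj 1 (by norm_num)
  simp only [zero_add] at hx1
  rw [hx1] at a1
  obtain ⟨e2, -, hx2⟩ := adj_inl a1
  have a2 := hadj 2 (by norm_num)
  rw [hx2] at a2
  obtain ⟨e3, -, hx3'⟩ := adj_inr a2
  -- the middle edge
  obtain ⟨h, ⟨hx3, hx4⟩ | ⟨hx3, -⟩⟩ := hadj 3 (by norm_num)
  swap
  · simp only [Nat.reduceAdd] at hx3'
    rw [hx3'] at hx3
    exact absurd hx3 (by simp)
  simp only [Nat.reduceAdd] at hx4
  -- to the left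
  have b2 := (hadj 2 (by norm_num)).symm
  simp only [Nat.reduceAdd] at b2
  rw [hx3] at b2
  obtain ⟨a, ha, hx2⟩ := adj_inl b2
  have b1 := (hadj 1 (by norm_num)).symm
  simp only [Nat.reduceAdd] at b1
  rw [hx2] at b1
  obtain ⟨e', he', hx1⟩ := adj_inr b1
  have b0 := (hadj 0 (by norm_num)).symm
  simp only [zero_add] at b0
  rw [hx1] at b0
  obtain ⟨a'', ha'', hx0⟩ := adj_inl b0
  -- to the right
  have b4 := hadj 4 (by norm_num)
  simp only [Nat.reduceAdd] at b4
  rw [hx4] at b4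
  obtain ⟨e, he, hx5⟩ := adj_inr b4
  have b5 := hadj 5 (by norm_num)
  simp only [Nat.reduceAdd] at b5
  rw [hx5] at b5
  obtain ⟨a', ha', hx6⟩ := adj_inl b5
  -- non-backtracking
  have n0 := hne 0 (by norm_num)
  have n1 := hne 1 (by norm_num)
  have n2 := hne 2 (by norm_num)
  have n3 := hne 3 (by norm_num)
  have n4 := hne 4 (by norm_num)
  simp only [Nat.reduceAdd, zero_add] at n0 n1 n2 n3 n4
  have c0 : a'' ∉ EG k := by
    intro hc
    apply n0
    rw [hx0, hx2]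
    congr 1
    have h1 := QuotientGroup.mk_mul_of_mem (s := EG k) (h * a * e') hc
    have h2 := QuotientGroup.mk_mul_of_mem (s := EG k) (h * a) he'
    exact h1.trans h2
  have c1 : e' ∉ AG k := by
    intro hc
    apply n1
    rw [hx1, hx3]
    congr 1
    have h1 := QuotientGroup.mk_mul_of_mem (s := AG k) (h * a) hc
    have h2 := QuotientGroup.mk_mul_of_mem (s := AG k) h ha
    exact h1.trans h2
  have c2 : a ∉ EG k := by
    intro hc
    apply n2
    rw [hx2, hx4]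
    congr 1
    exact QuotientGroup.mk_mul_of_mem (s := EG k) h hc
  have c3 : e ∉ AG k := by
    intro hc
    apply n3
    rw [hx3, hx5]
    congr 1
    exact (QuotientGroup.mk_mul_of_mem (s := AG k) h hc).symm
  have c4 : a' ∉ EG k := by
    intro hc
    apply n4
    rw [hx4, hx6]
    congr 1
    have h1 := QuotientGroup.mk_mul_of_mem (s := EG k) (h * e) hc
    have h2 := QuotientGroup.mk_mul_of_mem (s := EG k) h he
    exact (h1.trans h2).symm
  have f0 := hfix 0 (by norm_num)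
  have f1 := hfix 1 (by norm_num)
  have f2 := hfix 2 (by norm_num)
  have f3 := hfix 3 (by norm_num)
  have f4 := hfix 4 (by norm_num)
  have f5 := hfix 5 (by norm_num)
  have f6 := hfix 6 (by norm_num)
  rw [hx0, fix_inr] at f0
  rw [hx1, fix_inl] at f1
  rw [hx2, fix_inr] at f2
  rw [hx3, fix_inl] at f3
  rw [hx4, fix_inr] at f4
  rw [hx5, fix_inl] at f5
  rw [hx6, fix_inr] at f6
  exact path_fin ha c2 he c3 ha' c4 he' c1 ha'' c0 f3 f4 f2 f1 f0 f5 f6

/-- **an automorphism which fixes two vertices of distance at least 7 has finite order** -/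
theorem dist_fin [CharZero k] [IsAlgClosed k] (g : GA k) (v w : Vx k) (hd : 7 ≤ (Tr k).dist v w)
    (hv : g • v = v) (hw : g • w = w) : ∃ N, 0 < N ∧ g ^ N = 1 := by
  classical
  obtain ⟨p, hp, hlen⟩ := (Tr_connected (k := k) v w).exists_path_of_dist
  let φ : Tr k →g Tr k := ⟨fun x => g • x, fun h => Tr_smul g _ _ h⟩
  have hinj : Function.Injective φ := MulAction.injective g
  obtain ⟨q, hqdef⟩ : ∃ q : (Tr k).Walk v w, q = (p.map φ).copy hv hw := ⟨_, rfl⟩
  have hq : q.IsPath := by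
    rw [hqdef, SimpleGraph.Walk.isPath_copy]
    exact SimpleGraph.Walk.map_isPath_of_injective hinj hp
  have hqp : q = p := congrArg Subtype.val (Tr_acyclic.path_unique ⟨q, hq⟩ ⟨p, hp⟩)
  have hfix : ∀ i, g • p.getVert i = p.getVert i := by
    intro i
    have h1 : q.getVert i = g • p.getVert i := by
      rw [hqdef, SimpleGraph.Walk.getVert_copy, SimpleGraph.Walk.getVert_map]
      rfl
    rw [← h1, hqp]
  have hadj : ∀ i < p.length, (Tr k).Adj (p.getVert i) (p.getVert (i + 1)) :=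
    fun i hi => p.adj_getVert_succ hi
  have hne : ∀ i, i + 2 ≤ p.length → p.getVert i ≠ p.getVert (i + 2) := by
    intro i hi h1
    have h2 := hp.getVert_injOn (show i ≤ p.length by omega) (show i + 2 ≤ p.length from hi) h1
    omega
  rw [← hlen] at hd
  rcases h0 : p.getVert 0 with y | y
  · refine seven g (fun i => p.getVert (i + 1)) ?_ (fun i hi => hadj _ (by omega))
      (fun i hi => hne _ (by omega)) (fun i _ => hfix _)
    have h1 := hadj 0 (by omega)
    obtain ⟨u, rfl⟩ := QuotientGroup.mk_surjective y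
    rw [h0] at h1
    obtain ⟨a, -, h2⟩ := adj_inl h1
    exact ⟨_, h2⟩
  · exact seven g (fun i => p.getVert i) ⟨y, h0⟩ (fun i hi => hadj _ (by omega))
      (fun i hi => hne _ (by omega)) (fun i _ => hfix _)

end path

end Pool.Agent.N77.PA
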